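import Pool.Agent.W751.RR.Stm
import Pool.Agent.W349.CD.NU

set_option autoImplicit false

/-!
Part POTB of project RR (helper108): bounds of two kernels.
-/

open MeasureTheory Pool.Agent.W751.CD Pool.Agent.W751.RR

namespace Pool.Agent.W108.RR

theorem vol_ball (ρ : ℝ) (hρ : 0 < ρ) :
    volume (Metric.closedBall (0 : ℂ) ρ) = ENNReal.ofReal (Real.pi * ρ ^ 2) := by
  rw [Complex.volume_closedBall, ← ENNReal.ofReal_pow hρ.le, mul_comm Real.pi,
    ENNReal.ofReal_mul (by positivity), ← NNReal.coe_real_pi, ENNReal.ofReal_coe_nnreal]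

/-- the integral of the kernel -/
theorem gen (ρ : ℝ) (hρ : 0 < ρ) (w : ℂ) (g h : ℂ → ENNReal)
    (hgh : ∀ z, g z ≤ 1 + h (w - z)) :
    ∫⁻ z, g z ∂(m1 ρ) ≤ 1 + ENNReal.ofReal ((Real.pi * ρ ^ 2)⁻¹) * ∫⁻ u, h u := by
  have hV := vol_ball ρ hρ
  have hpos : 0 < Real.pi * ρ ^ 2 := by positivity
  unfold m1
  rw [lintegral_smul_measure, smul_eq_mul, hV, ← ENNReal.ofReal_inv_of_pos hpos]
  have h1 : ∫⁻ z in Metric.closedBall (0 : ℂ) ρ, g z ≤
      ENNReal.ofReal (Real.pi * ρ ^ 2) + ∫⁻ u, h u := by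
    calc ∫⁻ z in Metric.closedBall (0 : ℂ) ρ, g z
        ≤ ∫⁻ z in Metric.closedBall (0 : ℂ) ρ, (1 + h (w - z)) := lintegral_mono hgh
      _ = (∫⁻ z in Metric.closedBall (0 : ℂ) ρ, 1) +
          ∫⁻ z in Metric.closedBall (0 : ℂ) ρ, h (w - z) :=
          lintegral_add_left measurable_const _
      _ ≤ ENNReal.ofReal (Real.pi * ρ ^ 2) + ∫⁻ u, h u := by
          refine add_le_add ?_ ?_
          · rw [lintegral_const, Measure.restrict_apply_univ, one_mul, hV]
          · refine (setLIntegral_le_lintegral _ _).trans (le_of_eq ?_)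
            exact lintegral_sub_left_eq_self h w
  calc _ ≤ ENNReal.ofReal ((Real.pi * ρ ^ 2)⁻¹) *
        (ENNReal.ofReal (Real.pi * ρ ^ 2) + ∫⁻ u, h u) := by gcongr
    _ = 1 + ENNReal.ofReal ((Real.pi * ρ ^ 2)⁻¹) * ∫⁻ u, h u := by
        rw [mul_add, ← ENNReal.ofReal_mul (by positivity), inv_mul_cancel₀ hpos.ne',
          ENNReal.ofReal_one]

theorem ker1 : ∫⁻ u : ℂ, ({a : ℂ | ‖a‖ < 1}).indicator (fun a => ENNReal.ofReal (‖a‖⁻¹)) u =
    ENNReal.ofReal (2 * Real.pi) := by
  rw [← Complex.lintegral_comp_polarCoord_symm]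
  have e1 : ∀ p ∈ polarCoord.target, ENNReal.ofReal p.1 • Set.indicator {a : ℂ | ‖a‖ < 1}
      (fun a : ℂ => ENNReal.ofReal (‖a‖⁻¹)) (Complex.polarCoord.symm p) =
      (Set.Iio (1 : ℝ)).indicator (fun _ : ℝ => (1 : ENNReal)) p.1 *
        (fun _ : ℝ => (1 : ENNReal)) p.2 := by
    rintro ⟨r, θ⟩ hp
    rw [polarCoord_target] at hp
    have hr : 0 < r := hp.1
    have hn : ‖Complex.polarCoord.symm (r, θ)‖ = r := by
      rw [Complex.norm_polarCoord_symm]
      exact abs_of_pos hr
    by_cases hc : r < 1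
    · rw [Set.indicator_of_mem (by rw [Set.mem_ofPred_eq, hn]; exact hc),
        Set.indicator_of_mem (by simpa using hc), hn]
      rw [smul_eq_mul, ← ENNReal.ofReal_mul hr.le, mul_one, mul_inv_cancel₀ hr.ne',
        ENNReal.ofReal_one]
    · rw [Set.indicator_of_notMem (by rw [Set.mem_ofPred_eq, hn]; exact hc),
        Set.indicator_of_notMem (by simpa using hc)]
      simp
  have mm : Measurable ((Set.Iio (1 : ℝ)).indicator (fun _ : ℝ => (1 : ENNReal))) :=
    Measurable.indicator measurable_const measurableSet_Iio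
  rw [setLIntegral_congr_fun polarCoord.open_target.measurableSet e1, polarCoord_target,
    Measure.volume_eq_prod, ← Measure.prod_restrict,
    lintegral_prod_mul mm.aemeasurable measurable_const.aemeasurable]
  rw [lintegral_indicator measurableSet_Iio, Measure.restrict_restrict measurableSet_Iio]
  have e2 : Set.Iio (1 : ℝ) ∩ Set.Ioi 0 = Set.Ioo 0 1 := by
    ext x; simp [and_comm]
  rw [e2, lintegral_const, lintegral_const, Measure.restrict_apply_univ,
    Measure.restrict_apply_univ, Real.volume_Ioo, Real.volume_Ioo, one_mul, one_mul]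
  simp only [sub_zero, ENNReal.ofReal_one, one_mul]
  congr 1
  ring

theorem ker2 (N : ℕ) (hN : 2 ≤ N) :
    ∫⁻ u : ℂ, ({a : ℂ | 1 / (N : ℝ) ≤ ‖a‖ ∧ ‖a‖ ≤ 1}).indicator
      (fun a => ENNReal.ofReal ((‖a‖ ^ 2)⁻¹)) u =
    ENNReal.ofReal (2 * Real.pi * Real.log N) := by
  have hN0 : (0 : ℝ) < N := by exact_mod_cast (by omega : 0 < N)
  have hN1 : (1 : ℝ) ≤ N := by exact_mod_cast (by omega : 1 ≤ N)
  have h := W349.CD.nu_ann (1 / (N : ℝ)) 1 (by positivity) (by
    rw [div_le_one hN0]; exact hN1)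
  rw [nu, withDensity_apply _ (W349.CD.meas_ann _ _),
    ← lintegral_indicator (W349.CD.meas_ann _ _)] at h
  rw [h]
  congr 3
  field_simp

/-- **POTB** -/
theorem POTB : S_POTB := by
  intro ρ hρ
  have hl2 : (1 : ℝ) ≤ 2 * Real.log 2 := by
    have := Real.log_two_gt_d9
    linarith
  refine ⟨2 + 2 / ρ ^ 2, by positivity, ?_, ?_⟩
  · intro w
    have h := gen ρ hρ w (fun z => ENNReal.ofReal (‖w - z‖⁻¹))
      (({a : ℂ | ‖a‖ < 1}).indicator (fun a => ENNReal.ofReal (‖a‖⁻¹))) (fun z => by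
        by_cases hc : ‖w - z‖ < 1
        · rw [Set.indicator_of_mem (by exact hc)]
          exact le_add_self
        · rw [Set.indicator_of_notMem (by exact hc), add_zero]
          push Not at hc
          rw [← ENNReal.ofReal_one]
          exact ENNReal.ofReal_le_ofReal (inv_le_one_of_one_le₀ hc))
    refine h.trans ?_
    rw [ker1, ← ENNReal.ofReal_mul (by positivity), ← ENNReal.ofReal_one,
      ← ENNReal.ofReal_add (by norm_num) (by positivity)]
    refine ENNReal.ofReal_le_ofReal ?_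
    have e : (Real.pi * ρ ^ 2)⁻¹ * (2 * Real.pi) = 2 / ρ ^ 2 := by
      field_simp
    rw [e]
    linarith
  · intro N hN w
    have hN0 : (0 : ℝ) < N := by exact_mod_cast (by omega : 0 < N)
    have hN2 : (2 : ℝ) ≤ N := by exact_mod_cast hN
    have hA : MeasurableSet {z : ℂ | 1 / (N : ℝ) ≤ ‖w - z‖} := by
      apply IsClosed.measurableSet
      exact isClosed_le continuous_const (by fun_prop)
    rw [← lintegral_indicator hA]
    have h := gen ρ hρ w
      (({z : ℂ | 1 / (N : ℝ) ≤ ‖w - z‖}).indicator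
        (fun z => ENNReal.ofReal ((‖w - z‖ ^ 2)⁻¹)))
      (({a : ℂ | 1 / (N : ℝ) ≤ ‖a‖ ∧ ‖a‖ ≤ 1}).indicator
        (fun a => ENNReal.ofReal ((‖a‖ ^ 2)⁻¹))) (fun z => by
        by_cases hc : 1 / (N : ℝ) ≤ ‖w - z‖
        · rw [Set.indicator_of_mem (by exact hc)]
          by_cases hd : ‖w - z‖ ≤ 1
          · rw [Set.indicator_of_mem (by exact ⟨hc, hd⟩)]
            exact le_add_self
          · rw [Set.indicator_of_notMem (by intro h'; exact hd h'.2), add_zero]
            push Not at hd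
            rw [← ENNReal.ofReal_one]
            refine ENNReal.ofReal_le_ofReal (inv_le_one_of_one_le₀ ?_)
            exact one_le_pow₀ hd.le
        · rw [Set.indicator_of_notMem (by exact hc)]
          exact bot_le)
    refine h.trans ?_
    have hlog : Real.log 2 ≤ Real.log N := Real.log_le_log (by norm_num) hN2
    have hlog0 : 0 ≤ Real.log N := by linarith
    rw [ker2 N hN, ← ENNReal.ofReal_mul (by positivity), ← ENNReal.ofReal_one,
      ← ENNReal.ofReal_add (by norm_num) (by positivity)]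
    refine ENNReal.ofReal_le_ofReal ?_
    have e : (Real.pi * ρ ^ 2)⁻¹ * (2 * Real.pi * Real.log N) = 2 / ρ ^ 2 * Real.log N := by
      field_simp
    rw [e, add_mul]
    linarith

end Pool.Agent.W108.RR
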